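import Pool.Agent.Strip051.LB.B0m2p_pp.Defs

/-! # LINE boxes B0m2p_pp: part 4 -/

namespace Pool.Agent.Strip051.LB.B0m2p_pp

open Pool.Agent.Strip051.Box Pool.Agent.Strip051.Box2

set_option maxRecDepth 100000

theorem c33 : chk f 60 (L2 (R2 (L1 (R2 (R1 (L2 (R1 (R2 (L1 (L2 (L1 b0))))))))))) = true := by decide +kernel

theorem c34 : chk f 60 (R2 (R2 (L1 (R2 (R1 (L2 (R1 (R2 (L1 (L2 (L1 b0))))))))))) = true := by decide +kernel

theorem c35 : chk f 60 (R1 (R2 (R1 (L2 (R1 (R2 (L1 (L2 (L1 b0))))))))) = true := by decide +kernel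

theorem c36 : chk f 60 (L1 (R2 (R1 (R2 (L1 (L2 (L1 b0))))))) = true := by decide +kernel

theorem c37 : chk f 60 (L1 (R1 (R2 (R1 (R2 (L1 (L2 (L1 b0)))))))) = true := by decide +kernel

theorem c38 : chk f 60 (L2 (L2 (L2 (R1 (R1 (R2 (R1 (R2 (L1 (L2 (L1 b0))))))))))) = true := by decide +kernel

theorem c39 : chk f 60 (R2 (L2 (L2 (R1 (R1 (R2 (R1 (R2 (L1 (L2 (L1 b0))))))))))) = true := by decide +kernel

theorem c40 : chk f 60 (R2 (L2 (R1 (R1 (R2 (R1 (R2 (L1 (L2 (L1 b0)))))))))) = true := by decide +kernel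

theorem c41 : chk f 60 (R2 (R1 (R1 (R2 (R1 (R2 (L1 (L2 (L1 b0))))))))) = true := by decide +kernel

theorem c42 : chk f 60 (L2 (R1 (L2 (L1 b0)))) = true := by decide +kernel

theorem c43 : chk f 60 (L2 (L1 (R2 (R1 (L2 (L1 b0)))))) = true := by decide +kernel

theorem c44 : chk f 60 (L2 (L1 (L2 (L1 (R2 (L1 (R2 (R1 (L2 (L1 b0)))))))))) = true := by decide +kernel

theorem c45 : chk f 60 (L1 (R2 (L1 (L2 (L1 (R2 (L1 (R2 (R1 (L2 (L1 b0))))))))))) = true := by decide +kernel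

end Pool.Agent.Strip051.LB.B0m2p_pp
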